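import Mathlib

set_option autoImplicit false

/-!
Words over `{0, ..., M}` without additive squares: a descent criterion which allows two different
images for the letters, and the resulting family of words.

The descent follows the earlier run's development (Dekking's method with a low and a high path
through a set of classes modulo `L * al` without three term progressions).
-/

namespace Pool.Agent.KS6_63.AddSq2

open Finset

/-- Prefix sums of a sequence. -/
def S (y : ℕ → ℤ) (n : ℕ) : ℤ := ∑ k ∈ range n, y k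

theorem S_succ (y : ℕ → ℤ) (n : ℕ) : S y (n + 1) = S y n + y n := by
  simp [S, sum_range_succ]

theorem S_add (y : ℕ → ℤ) (n k : ℕ) : S y (n + k) = S y n + ∑ j ∈ range k, y (n + j) := by
  simp [S, sum_range_add]

/-- Two adjacent blocks of length `k` starting at `n` have equal sums. -/
def IsSq (y : ℕ → ℤ) (n k : ℕ) : Prop := S y n - 2 * S y (n + k) + S y (n + 2 * k) = 0

/-- no three term progressions with nonzero difference among the bits of the mask modulo N -/
theorem apfree3 (N mask Mk : ℕ)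
    (hM : ∀ e < 3 * N, Mk.testBit e = mask.testBit (e % N))
    (hA : ∀ d < N, 0 < d → (mask &&& (Mk >>> d) &&& (Mk >>> (2 * d))) = 0)
    (c d : ℕ) (hc : c < N) (hd : d < N) (hd0 : 0 < d)
    (b0 : mask.testBit c = true) (b1 : mask.testBit ((c + d) % N) = true)
    (b2 : mask.testBit ((c + 2 * d) % N) = true) :
    False := by
  have h := hA d hd hd0
  have h' := congrArg (fun t => t.testBit c) h
  simp only [Nat.testBit_and, Nat.testBit_shiftRight, Nat.zero_testBit] at h'
  rw [hM (d + c) (by omega), hM (2 * d + c) (by omega),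
    Nat.add_comm d c, Nat.add_comm (2 * d) c, b0, b1, b2] at h'
  simp at h'

theorem apz (N mask Mk : ℕ) (hN : 0 < N)
    (hM : ∀ e < 3 * N, Mk.testBit e = mask.testBit (e % N))
    (hA : ∀ d < N, 0 < d → (mask &&& (Mk >>> d) &&& (Mk >>> (2 * d))) = 0)
    (u v w : ZMod N) (hu : mask.testBit u.val = true) (hv : mask.testBit v.val = true)
    (hw : mask.testBit w.val = true) (h : u - 2 * v + w = 0) : v = u ∧ w = u := by
  have : NeZero N := ⟨hN.ne'⟩
  have h0 : (v - u).val = 0 := by
    by_contra hne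
    have hpos : 0 < (v - u).val := Nat.pos_of_ne_zero hne
    have e1 : v = ((u.val + (v - u).val : ℕ) : ZMod N) := by
      rw [Nat.cast_add, ZMod.natCast_zmod_val, ZMod.natCast_zmod_val]
      ring
    have e2 : w = ((u.val + 2 * (v - u).val : ℕ) : ZMod N) := by
      rw [Nat.cast_add, Nat.cast_mul, ZMod.natCast_zmod_val, ZMod.natCast_zmod_val]
      push_cast
      linear_combination h
    refine apfree3 N mask Mk hM hA u.val (v - u).val (ZMod.val_lt _) (ZMod.val_lt _) hpos hu ?_ ?_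
    · rw [e1, ZMod.val_natCast] at hv
      exact hv
    · rw [e2, ZMod.val_natCast] at hw
      exact hw
  have h1 : v - u = 0 := (ZMod.val_eq_zero _).1 h0
  have h2 : v = u := sub_eq_zero.1 h1
  refine ⟨h2, ?_⟩
  rw [h2] at h
  linear_combination h

theorem step (L al : ℕ) (M : ℤ) (ta : ℕ) (zp zs : ℕ → ℕ) (mask Mk : ℕ)
    (hL : 1 < L) (hal : 0 < al) (hbe : al ∣ zp L + ta) (hco : Nat.Coprime ta L)
    (hne : ∀ r < L, 0 < r → zp r % al ≠ zs r % al)
    (hmp : ∀ r < L, mask.testBit ((L * zp r + ta * r) % (L * al)) = true)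
    (hms : ∀ r < L, mask.testBit ((L * zs r + ta * r) % (L * al)) = true)
    (hM : ∀ e < 3 * (L * al), Mk.testBit e = mask.testBit (e % (L * al)))
    (hA : ∀ d < L * al, 0 < d → (mask &&& (Mk >>> d) &&& (Mk >>> (2 * d))) = 0)
    (x y : ℕ → ℤ) (Q : ℕ → ℕ → ℤ)
    (hQ0 : ∀ m, Q m 0 = 0) (hQL : ∀ m, Q m L = zp L + al * x m)
    (hQ : ∀ m r, r < L → Q m r = zp r ∨ Q m r = zs r - (M - x m) * al)
    (hy : ∀ m r, r < L → y (L * m + r) = Q m (r + 1) - Q m r)
    (n k : ℕ) (hk : 0 < k)
    (hsq : ∀ m q, 0 < q → k = L * q → ¬ IsSq x m q) : ¬ IsSq y n k := by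
  intro h
  have hL0 : 0 < L := by omega
  have hN : 0 < L * al := Nat.mul_pos hL0 hal
  have inner : ∀ m r, r ≤ L → S y (L * m + r) = S y (L * m) + Q m r := by
    intro m r
    induction r with
    | zero => intro _; simp [hQ0]
    | succ r ih =>
      intro hr
      rw [← Nat.add_assoc, S_succ, ih (by omega), hy m r (by omega)]
      ring
  have base : ∀ m, S y (L * m) = (m : ℤ) * zp L + al * S x m := by
    intro m
    induction m with
    | zero => simp [S]
    | succ m ih =>
      rw [Nat.mul_succ, inner m L le_rfl, ih, hQL, S_succ]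
      push_cast
      ring
  have dec : ∀ t : ℕ, S y t = ((t / L : ℕ) : ℤ) * zp L + al * S x (t / L) + Q (t / L) (t % L) := by
    intro t
    have := inner (t / L) (t % L) (Nat.mod_lt _ hL0).le
    rw [Nat.div_add_mod, base] at this
    exact this
  have hsq' : S y n - 2 * S y (n + k) + S y (n + 2 * k) = 0 := h
  set N := L * al with hNdef
  set c : ℕ → ZMod N := fun t => (((L : ℤ) * S y t + ta * t : ℤ) : ZMod N) with hc
  have cQ : ∀ t, c t = (((L : ℤ) * Q (t / L) (t % L) + ta * (t % L : ℕ) : ℤ) : ZMod N) := by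
    intro t
    have hdec := dec t
    have ht : (t : ℤ) = (L : ℤ) * ((t / L : ℕ) : ℤ) + ((t % L : ℕ) : ℤ) := by
      exact_mod_cast (Nat.div_add_mod t L).symm
    obtain ⟨e, he⟩ := hbe
    have he' : (zp L : ℤ) + ta = al * e := by exact_mod_cast he
    simp only [hc]
    rw [ZMod.intCast_eq_intCast_iff_dvd_sub]
    refine ⟨-(((t / L : ℕ) : ℤ) * e + S x (t / L)), ?_⟩
    push_cast [hNdef] at hdec ht ⊢
    rw [hdec]
    linear_combination -(ta : ℤ) * ht - (L : ℤ) * ((t : ℤ) / L) * he'
  have memC : ∀ t, mask.testBit (c t).val = true := by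
    intro t
    have hr : t % L < L := Nat.mod_lt _ hL0
    rw [cQ]
    generalize t % L = rr at hr
    generalize t / L = qq
    rcases hQ qq rr hr with h1 | h1
    · rw [h1]
      have e1 : (((L : ℤ) * zp rr + ta * (rr : ℕ) : ℤ) : ZMod N) =
          ((L * zp rr + ta * rr : ℕ) : ZMod N) := by push_cast; ring
      rw [e1, ZMod.val_natCast]
      exact hmp _ hr
    · rw [h1]
      have e1 : (((L : ℤ) * (zs rr - (M - x qq) * al) + ta * (rr : ℕ) : ℤ) : ZMod N) =
          ((L * zs rr + ta * rr : ℕ) : ZMod N) := by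
        rw [← Int.cast_natCast (R := ZMod N), ZMod.intCast_eq_intCast_iff_dvd_sub]
        refine ⟨M - x qq, ?_⟩
        push_cast [hNdef]
        ring
      rw [e1, ZMod.val_natCast]
      exact hms _ hr
  have z1 : c n - 2 * c (n + k) + c (n + 2 * k) = 0 := by
    simp only [hc]
    have : (((L : ℤ) * (S y n - 2 * S y (n + k) + S y (n + 2 * k)) : ℤ) : ZMod N) = 0 := by
      rw [hsq']; simp
    push_cast at this ⊢
    linear_combination this
  obtain ⟨e1, e2⟩ := apz N mask Mk hN hM hA _ _ _ (memC _) (memC _) (memC _) z1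
  have place : ∀ s t : ℕ, c s = c t → s % L = t % L ∧
      (al : ℤ) ∣ Q (t / L) (t % L) - Q (s / L) (s % L) := by
    intro s t hst
    rw [cQ, cQ, ZMod.intCast_eq_intCast_iff_dvd_sub] at hst
    have h1 : (L : ℤ) ∣ (ta : ℤ) * (((t % L : ℕ) : ℤ) - ((s % L : ℕ) : ℤ)) := by
      have h2 : (L : ℤ) ∣ (N : ℤ) := ⟨al, by rw [hNdef]; push_cast; ring⟩
      have h3 := (h2.trans hst).sub (Dvd.intro (Q (t / L) (t % L) - Q (s / L) (s % L)) rfl)
      have h4 : (L : ℤ) * Q (t / L) (t % L) + ta * ((t % L : ℕ) : ℤ) -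
          (L * Q (s / L) (s % L) + ta * ((s % L : ℕ) : ℤ)) -
          L * (Q (t / L) (t % L) - Q (s / L) (s % L)) =
          (ta : ℤ) * (((t % L : ℕ) : ℤ) - ((s % L : ℕ) : ℤ)) := by ring
      rwa [h4] at h3
    have hco' : IsCoprime (L : ℤ) (ta : ℤ) := by
      rw [Int.isCoprime_iff_gcd_eq_one]
      simpa [Int.gcd] using hco.symm
    have h2 := hco'.dvd_of_dvd_mul_left h1
    have h3 : s % L = t % L := by
      have h4 := (Nat.modEq_iff_dvd (n := L) (a := s % L) (b := t % L)).2 h2
      have h5 : (s % L) % L = (t % L) % L := h4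
      rwa [Nat.mod_mod, Nat.mod_mod] at h5
    refine ⟨h3, ?_⟩
    rw [h3] at hst ⊢
    have h4 : (L : ℤ) * al ∣ L * (Q (t / L) (t % L) - Q (s / L) (t % L)) := by
      have h5 : (L : ℤ) * (Q (t / L) (t % L) - Q (s / L) (t % L)) =
          (L : ℤ) * Q (t / L) (t % L) + ta * ((t % L : ℕ) : ℤ) -
          (L * Q (s / L) (t % L) + ta * ((t % L : ℕ) : ℤ)) := by ring
      rw [h5]
      have h6 : ((N : ℕ) : ℤ) = (L : ℤ) * al := by rw [hNdef]; push_cast; ring
      rw [← h6]
      exact hst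
    exact (mul_dvd_mul_iff_left (by exact_mod_cast hL0.ne')).1 h4
  obtain ⟨r1, p1⟩ := place n (n + k) e1.symm
  obtain ⟨r2, p2⟩ := place n (n + 2 * k) e2.symm
  have hLk : L ∣ k := by
    have : (n + 0) % L = (n + k) % L := by simpa using r1
    have h' := (Nat.ModEq.add_left_cancel' n this)
    exact (Nat.modEq_zero_iff_dvd).1 h'.symm
  obtain ⟨q, rfl⟩ := hLk
  have hq : 0 < q := by
    rcases Nat.eq_zero_or_pos q with h | h
    · subst h; simp at hk
    · exact h
  have q1 : (n + L * q) / L = n / L + q := by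
    rw [Nat.add_mul_div_left _ _ hL0]
  have q2 : (n + 2 * (L * q)) / L = n / L + 2 * q := by
    rw [show 2 * (L * q) = L * (2 * q) by ring, Nat.add_mul_div_left _ _ hL0]
  have E0 := dec n
  have E1 := dec (n + L * q)
  have E2 := dec (n + 2 * (L * q))
  rw [q1, ← r1] at E1 p1
  rw [q2, ← r2] at E2 p2
  have hrL : n % L < L := Nat.mod_lt _ hL0
  generalize n / L = m at *
  generalize n % L = r at *
  have hal' : (al : ℤ) ≠ 0 := by exact_mod_cast hal.ne'
  -- all three of the low type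
  have fin1 : ∀ z : ℤ, Q m r = z → Q (m + q) r = z → Q (m + 2 * q) r = z → False := by
    intro z h1 h2 h3
    apply hsq m q hq rfl
    unfold IsSq
    rw [h1] at E0; rw [h2] at E1; rw [h3] at E2
    have : (al : ℤ) * (S x m - 2 * S x (m + q) + S x (m + 2 * q)) = 0 := by
      rw [← hsq', E0, E1, E2]
      push_cast
      ring
    exact (mul_eq_zero.1 this).resolve_left hal'
  rcases Nat.eq_zero_or_pos r with h00 | hpos
  · exact fin1 0 (by rw [h00, hQ0]) (by rw [h00, hQ0]) (by rw [h00, hQ0])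
  have mix : ∀ a b : ℕ, Q a r = zp r → Q b r = zs r - (M - x b) * al →
      ¬ (al : ℤ) ∣ Q b r - Q a r := by
    intro a b h1 h2 h3
    rw [h1, h2] at h3
    have h4 : (al : ℤ) ∣ (zs r : ℤ) - zp r := by
      have h5 := h3.add (Dvd.intro_left (M - x b) rfl : (al : ℤ) ∣ (M - x b) * al)
      have h6 : (zs r : ℤ) - (M - x b) * al - zp r + (M - x b) * al = zs r - zp r := by ring
      rwa [h6] at h5
    exact hne r hrL hpos ((Nat.modEq_iff_dvd (n := al) (a := zp r) (b := zs r)).2 h4)
  rcases hQ m r hrL with ha | ha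
  · refine fin1 _ ha ?_ ?_
    · exact (hQ (m + q) r hrL).resolve_right fun hb => mix _ _ ha hb p1
    · exact (hQ (m + 2 * q) r hrL).resolve_right fun hb => mix _ _ ha hb p2
  · have hb := (hQ (m + q) r hrL).resolve_left fun hb => mix _ _ hb ha (by
      rw [← neg_sub, dvd_neg]; exact p1)
    have hc' := (hQ (m + 2 * q) r hrL).resolve_left fun hb => mix _ _ hb ha (by
      rw [← neg_sub, dvd_neg]; exact p2)
    rw [ha] at E0; rw [hb] at E1; rw [hc'] at E2
    apply hsq (m + 1) q hq rfl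
    unfold IsSq
    have t1 : S x (m + 1) = S x m + x m := S_succ _ _
    have t2 : S x (m + 1 + q) = S x (m + q) + x (m + q) := by
      rw [show m + 1 + q = m + q + 1 by ring, S_succ]
    have t3 : S x (m + 1 + 2 * q) = S x (m + 2 * q) + x (m + 2 * q) := by
      rw [show m + 1 + 2 * q = m + 2 * q + 1 by ring, S_succ]
    have : (al : ℤ) * (S x (m + 1) - 2 * S x (m + 1 + q) + S x (m + 1 + 2 * q)) = 0 := by
      rw [← hsq', E0, E1, E2, t1, t2, t3]
      push_cast
      ring
    exact (mul_eq_zero.1 this).resolve_left hal'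

/-- prefix sums of the image of the letter `a`: the bits of the table tell whether the low or the
shifted high path is used -/
def PP (L al M : ℕ) (zp zs : ℕ → ℕ) (t a r : ℕ) : ℕ :=
  if t.testBit ((L + 1) * a + r) then zs r - (M - a) * al else zp r

/-- the data of the construction -/
structure Dat (L al M ta : ℕ) (zp zs : ℕ → ℕ) (mask Mk t0 t1 a0 : ℕ) : Prop where
  hL : 1 < L
  hal : 0 < al
  hbe : al ∣ zp L + ta
  hco : Nat.Coprime ta L
  hne : ∀ r < L, 0 < r → zp r % al ≠ zs r % al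
  hmp : ∀ r < L, mask.testBit ((L * zp r + ta * r) % (L * al)) = true
  hms : ∀ r < L, mask.testBit ((L * zs r + ta * r) % (L * al)) = true
  hM : ∀ e < 3 * (L * al), Mk.testBit e = mask.testBit (e % (L * al))
  hA : ∀ d < L * al, 0 < d → (mask &&& (Mk >>> d) &&& (Mk >>> (2 * d))) = 0
  p0 : ∀ a ≤ M, PP L al M zp zs t0 a 0 = 0 ∧ PP L al M zp zs t1 a 0 = 0
  pL : ∀ a ≤ M, PP L al M zp zs t0 a L = zp L + al * a ∧ PP L al M zp zs t1 a L = zp L + al * a
  pi : ∀ a ≤ M, ∀ r < L, (PP L al M zp zs t0 a r ≤ PP L al M zp zs t0 a (r + 1) ∧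
      PP L al M zp zs t0 a (r + 1) ≤ PP L al M zp zs t0 a r + M) ∧
    (PP L al M zp zs t1 a r ≤ PP L al M zp zs t1 a (r + 1) ∧
      PP L al M zp zs t1 a (r + 1) ≤ PP L al M zp zs t1 a r + M)
  pt : ∀ a ≤ M, ∀ r < L, (t0.testBit ((L + 1) * a + r) = true → (M - a) * al ≤ zs r) ∧
    (t1.testBit ((L + 1) * a + r) = true → (M - a) * al ≤ zs r)
  fr : ∀ a ≤ M, ∃ r < L, ∃ s < L, PP L al M zp zs t0
      (PP L al M zp zs t0 a (r + 1) - PP L al M zp zs t0 a r) s ≠ PP L al M zp zs t1
      (PP L al M zp zs t0 a (r + 1) - PP L al M zp zs t0 a r) s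
  ha0 : a0 ≤ M
  fx : PP L al M zp zs t0 a0 1 - PP L al M zp zs t0 a0 0 = a0

/-- the fixed point -/
def X (L : ℕ) (g : ℕ → ℕ → ℕ) (a0 : ℕ) : ℕ → ℕ
  | 0 => a0
  | (n + 1) => if h : 1 < L then g (X L g a0 ((n + 1) / L)) ((n + 1) % L) else a0
decreasing_by exact Nat.div_lt_self (Nat.succ_pos n) h

theorem X_eq (L : ℕ) (g : ℕ → ℕ → ℕ) (a0 : ℕ) (hL : 1 < L) (h0 : g a0 0 = a0) (n : ℕ) :
    X L g a0 n = g (X L g a0 (n / L)) (n % L) := by
  cases n with
  | zero =>
    have h : X L g a0 0 = a0 := by rw [X]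
    rw [Nat.zero_div, Nat.zero_mod, h, h0]
  | succ n => rw [X, dif_pos hL]

section
variable {L al M ta : ℕ} {zp zs : ℕ → ℕ} {mask Mk t0 t1 a0 : ℕ}

/-- the letter at place `r` of the image of the letter `a` -/
def GG (L al M : ℕ) (zp zs : ℕ → ℕ) (t a r : ℕ) : ℕ :=
  PP L al M zp zs t a (r + 1) - PP L al M zp zs t a r

/-- the fixed point -/
abbrev XX (L al M : ℕ) (zp zs : ℕ → ℕ) (t0 a0 : ℕ) : ℕ → ℕ :=
  X L (GG L al M zp zs t0) a0

/-- the words with choices `ε` -/
def W (L al M : ℕ) (zp zs : ℕ → ℕ) (t0 t1 a0 : ℕ) (ε : ℕ → Bool) (i : ℕ) : ℕ :=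
  GG L al M zp zs (if ε (i / L / L) then t1 else t0) (XX L al M zp zs t0 a0 (i / L)) (i % L)

theorem GG_le (D : Dat L al M ta zp zs mask Mk t0 t1 a0) (b : Bool) (a r : ℕ) (ha : a ≤ M)
    (hr : r < L) : GG L al M zp zs (if b then t1 else t0) a r ≤ M := by
  have h1 := D.pi a ha r hr
  unfold GG
  cases b
  · simp only [Bool.false_eq_true, if_false]
    omega
  · simp only [if_true]
    omega

theorem XX_le (D : Dat L al M ta zp zs mask Mk t0 t1 a0) (n : ℕ) :
    XX L al M zp zs t0 a0 n ≤ M := by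
  induction n using Nat.strong_induction_on with
  | _ n ih =>
  rcases Nat.eq_zero_or_pos n with h | h
  · subst h
    have : XX L al M zp zs t0 a0 0 = a0 := by rw [XX, X]
    rw [this]
    exact D.ha0
  · rw [XX, X_eq L _ a0 D.hL D.fx]
    have h1 := ih (n / L) (Nat.div_lt_self h D.hL)
    exact GG_le D false _ _ h1 (Nat.mod_lt _ (by have := D.hL; omega))

theorem PP_cases (D : Dat L al M ta zp zs mask Mk t0 t1 a0) (b : Bool) (a r : ℕ) (ha : a ≤ M)
    (hr : r < L) : (PP L al M zp zs (if b then t1 else t0) a r : ℤ) = zp r ∨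
      (PP L al M zp zs (if b then t1 else t0) a r : ℤ) = zs r - ((M : ℤ) - a) * al := by
  have h1 := D.pt a ha r hr
  unfold PP
  have key : ∀ t : ℕ, (t.testBit ((L + 1) * a + r) = true → (M - a) * al ≤ zs r) →
      (((if t.testBit ((L + 1) * a + r) = true then zs r - (M - a) * al else zp r : ℕ)) : ℤ) = zp r ∨
      (((if t.testBit ((L + 1) * a + r) = true then zs r - (M - a) * al else zp r : ℕ)) : ℤ) =
        zs r - ((M : ℤ) - a) * al := by
    intro t ht
    by_cases h : t.testBit ((L + 1) * a + r) = true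
    · right
      rw [if_pos h, Nat.cast_sub (ht h)]
      push_cast [ha]
      ring
    · left
      rw [if_neg h]
  cases b
  · exact key t0 h1.1
  · exact key t1 h1.2

theorem GG_cast (D : Dat L al M ta zp zs mask Mk t0 t1 a0) (b : Bool) (a r : ℕ) (ha : a ≤ M)
    (hr : r < L) : (GG L al M zp zs (if b then t1 else t0) a r : ℤ) =
      (PP L al M zp zs (if b then t1 else t0) a (r + 1) : ℤ) -
        (PP L al M zp zs (if b then t1 else t0) a r : ℤ) := by
  have h1 := D.pi a ha r hr
  unfold GG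
  cases b
  · exact Nat.cast_sub h1.1.1
  · exact Nat.cast_sub h1.2.1

/-- one step: every choice of the images of a word without additive squares -/
theorem one (D : Dat L al M ta zp zs mask Mk t0 t1 a0) (x : ℕ → ℕ) (hx : ∀ i, x i ≤ M)
    (b : ℕ → Bool) (y : ℕ → ℤ)
    (hy : ∀ m r, r < L → y (L * m + r) = (GG L al M zp zs (if b m then t1 else t0) (x m) r : ℤ))
    (n k : ℕ) (hk : 0 < k)
    (hsq : ∀ m q, 0 < q → k = L * q → ¬ IsSq (fun i => (x i : ℤ)) m q) : ¬ IsSq y n k := by
  refine step L al M ta zp zs mask Mk D.hL D.hal D.hbe D.hco D.hne D.hmp D.hms D.hM D.hA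
    (fun i => (x i : ℤ)) y (fun m r => (PP L al M zp zs (if b m then t1 else t0) (x m) r : ℤ))
    ?_ ?_ ?_ ?_ n k hk hsq
  · intro m
    have := D.p0 (x m) (hx m)
    cases b m
    · exact_mod_cast this.1
    · exact_mod_cast this.2
  · intro m
    have := D.pL (x m) (hx m)
    cases b m
    · exact_mod_cast this.1
    · exact_mod_cast this.2
  · intro m r hr
    exact PP_cases D (b m) (x m) r (hx m) hr
  · intro m r hr
    rw [hy m r hr]
    exact GG_cast D (b m) (x m) r (hx m) hr

theorem XX_sq (D : Dat L al M ta zp zs mask Mk t0 t1 a0) (k : ℕ) : ∀ n, 0 < k →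
    ¬ IsSq (fun i => (XX L al M zp zs t0 a0 i : ℤ)) n k := by
  induction k using Nat.strong_induction_on with
  | _ k ih =>
  intro n hk
  have hL := D.hL
  refine one D (XX L al M zp zs t0 a0) (XX_le D) (fun _ => false) _ ?_ n k hk ?_
  · intro m r hr
    have e1 : (L * m + r) / L = m := by
      rw [Nat.mul_add_div (by omega), Nat.div_eq_of_lt hr, Nat.add_zero]
    have e2 : (L * m + r) % L = r := by
      rw [Nat.mul_add_mod, Nat.mod_eq_of_lt hr]
    simp only [Bool.false_eq_true, if_false]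
    have := X_eq L (GG L al M zp zs t0) a0 D.hL D.fx (L * m + r)
    rw [e1, e2] at this
    exact_mod_cast this
  · intro m q hq hkq
    exact ih q (by rw [hkq]; nlinarith) m hq

theorem W_at (ε : ℕ → Bool) (m r : ℕ) (hr : r < L) :
    W L al M zp zs t0 t1 a0 ε (L * m + r) =
      GG L al M zp zs (if ε (m / L) then t1 else t0) (XX L al M zp zs t0 a0 m) r := by
  have e1 : (L * m + r) / L = m := by
    rw [Nat.mul_add_div (by omega), Nat.div_eq_of_lt hr, Nat.add_zero]
  have e2 : (L * m + r) % L = r := by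
    rw [Nat.mul_add_mod, Nat.mod_eq_of_lt hr]
  unfold W
  rw [e1, e2]

theorem W_sq (D : Dat L al M ta zp zs mask Mk t0 t1 a0) (ε : ℕ → Bool) (n k : ℕ) (hk : 0 < k) :
    ¬ IsSq (fun i => (W L al M zp zs t0 t1 a0 ε i : ℤ)) n k := by
  refine one D (XX L al M zp zs t0 a0) (XX_le D) (fun m => ε (m / L)) _ ?_ n k hk ?_
  · intro m r hr
    simp only [W_at ε m r hr]
  · intro m q hq _
    exact XX_sq D q m hq

theorem W_le (D : Dat L al M ta zp zs mask Mk t0 t1 a0) (ε : ℕ → Bool) (i : ℕ) :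
    W L al M zp zs t0 t1 a0 ε i ≤ M := by
  have hL := D.hL
  have h : L * (i / L) + i % L = i := Nat.div_add_mod i L
  rw [← h, W_at ε _ _ (Nat.mod_lt _ (by omega))]
  exact GG_le D _ _ _ (XX_le D _) (Nat.mod_lt _ (by omega))

theorem W_inj (D : Dat L al M ta zp zs mask Mk t0 t1 a0) (ε ε' : ℕ → Bool) (q : ℕ)
    (h : ∀ i < L * (L * (q + 1)), W L al M zp zs t0 t1 a0 ε i = W L al M zp zs t0 t1 a0 ε' i) :
    ε q = ε' q := by
  by_contra hne
  have hL := D.hL
  obtain ⟨r, hr, s, hs, hd⟩ := D.fr _ (XX_le D q)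
  set m := L * q + r with hm
  have hmq : m / L = q := by
    rw [hm, Nat.mul_add_div (by omega), Nat.div_eq_of_lt hr, Nat.add_zero]
  have hxm : XX L al M zp zs t0 a0 m = PP L al M zp zs t0 (XX L al M zp zs t0 a0 q) (r + 1) -
      PP L al M zp zs t0 (XX L al M zp zs t0 a0 q) r := by
    have := X_eq L (GG L al M zp zs t0) a0 D.hL D.fx m
    rw [hmq] at this
    rw [XX, this, hm, Nat.mul_add_mod, Nat.mod_eq_of_lt hr]
    rfl
  have hmlt : m + 1 ≤ L * (q + 1) := by
    rw [hm, Nat.mul_succ]; omega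
  have hle := XX_le D m
  -- prefix sums of both words inside the block
  have key : ∀ (δ : ℕ → Bool) (s : ℕ), s ≤ L →
      ∑ j ∈ range s, (W L al M zp zs t0 t1 a0 δ (L * m + j) : ℤ) =
        (PP L al M zp zs (if δ q then t1 else t0) (XX L al M zp zs t0 a0 m) s : ℤ) := by
    intro δ s
    induction s with
    | zero =>
      intro _
      have := D.p0 _ hle
      cases δ q
      · simp [this.1]
      · simp [this.2]
    | succ s ih =>
      intro hs
      rw [sum_range_succ, ih (by omega), W_at δ m s (by omega), hmq,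
        GG_cast D (δ q) _ s hle (by omega)]
      ring
  have h1 : ∑ j ∈ range s, (W L al M zp zs t0 t1 a0 ε (L * m + j) : ℤ) =
      ∑ j ∈ range s, (W L al M zp zs t0 t1 a0 ε' (L * m + j) : ℤ) := by
    refine sum_congr rfl fun j hj => ?_
    have hj' := mem_range.1 hj
    rw [h]
    have : L * (m + 1) ≤ L * (L * (q + 1)) := Nat.mul_le_mul_left _ hmlt
    rw [Nat.mul_succ] at this
    omega
  rw [key ε s hs.le, key ε' s hs.le] at h1
  rw [← hxm] at hd
  have h2 : PP L al M zp zs (if ε q then t1 else t0) (XX L al M zp zs t0 a0 m) s =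
      PP L al M zp zs (if ε' q then t1 else t0) (XX L al M zp zs t0 a0 m) s := by
    exact_mod_cast h1
  cases hε : ε q <;> cases hε' : ε' q <;> simp [hε, hε'] at h2 hne
  · exact hd h2
  · exact hd h2.symm

end

end Pool.Agent.KS6_63.AddSq2
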